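import Mathlib

/-!
Order arcs in hyperspaces of compact metric spaces: from a point `b` of a continuum `K`
there is a path in the hyperspace from `{b}` to `K`, all of whose values are contained in `K`.
-/

set_option autoImplicit false

open Topology TopologicalSpace Set

namespace Pool.Agent.Ward

universe u

section Closed

variable {X : Type u} [TopologicalSpace X] [T2Space X]

/-- The set of preconnected members of the hyperspace is closed. -/
theorem isClosed_isPreconnected [NormalSpace X] :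
    IsClosed {A : NonemptyCompacts X | IsPreconnected (A : Set X)} := by
  rw [← isOpen_compl_iff, isOpen_iff_mem_nhds]
  intro A hA
  have hA' : ¬ IsPreconnected (A : Set X) := hA
  rw [isPreconnected_closed_iff] at hA'
  push Not at hA'
  obtain ⟨P, Q, hP, hQ, hPQ, hAP, hAQ, hne⟩ := hA'
  have hAc : IsClosed (A : Set X) := A.isCompact.isClosed
  have hd : Disjoint ((A : Set X) ∩ P) ((A : Set X) ∩ Q) := by
    rw [Set.disjoint_iff_inter_eq_empty]
    rw [← hne]
    ext x; simp only [Set.mem_inter_iff]; tauto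
  obtain ⟨U, V, hU, hV, hPU, hQV, hUV⟩ := NormalSpace.normal _ _ (hAc.inter hP) (hAc.inter hQ) hd
  have h1 : IsOpen {C : NonemptyCompacts X | (C : Set X) ⊆ U ∪ V} :=
    NonemptyCompacts.isOpen_subsets_of_isOpen (hU.union hV)
  have h2 : IsOpen {C : NonemptyCompacts X | ((C : Set X) ∩ U).Nonempty} :=
    NonemptyCompacts.isOpen_inter_nonempty_of_isOpen hU
  have h3 : IsOpen {C : NonemptyCompacts X | ((C : Set X) ∩ V).Nonempty} :=
    NonemptyCompacts.isOpen_inter_nonempty_of_isOpen hV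
  refine Filter.mem_of_superset (((h1.inter h2).inter h3).mem_nhds ?_) ?_
  · refine ⟨⟨?_, ?_⟩, ?_⟩
    · intro x hx
      rcases hPQ hx with h | h
      · exact Or.inl (hPU ⟨hx, h⟩)
      · exact Or.inr (hQV ⟨hx, h⟩)
    · obtain ⟨x, hx⟩ := hAP
      exact ⟨x, hx.1, hPU hx⟩
    · obtain ⟨x, hx⟩ := hAQ
      exact ⟨x, hx.1, hQV hx⟩
  · rintro C ⟨⟨hC1, hC2⟩, hC3⟩ hC
    obtain ⟨x, hx, hxU, hxV⟩ := hC U V hU hV hC1 hC2 hC3
    exact Set.disjoint_left.1 hUV hxU hxV

theorem isClosed_subs (K : NonemptyCompacts X) : IsClosed {A : NonemptyCompacts X | A ≤ K} :=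
  NonemptyCompacts.isClosed_subsets_of_isClosed K.isCompact.isClosed

theorem isClosed_memb (b : X) : IsClosed {A : NonemptyCompacts X | b ∈ A} := by
  have : {A : NonemptyCompacts X | b ∈ A} =
      {A : NonemptyCompacts X | ((A : Set X) ∩ {b}).Nonempty} := by
    ext A
    simp [Set.inter_singleton_nonempty]
  rw [this]
  exact NonemptyCompacts.isClosed_inter_nonempty_of_isClosed isClosed_singleton

theorem isClosed_sups (K : NonemptyCompacts X) : IsClosed {A : NonemptyCompacts X | K ≤ A} := by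
  have : {A : NonemptyCompacts X | K ≤ A} = ⋂ b ∈ K, {A : NonemptyCompacts X | b ∈ A} := by
    ext A
    simp only [Set.mem_ofPred_eq, Set.mem_iInter]
    rfl
  rw [this]
  exact isClosed_biInter fun b _ => isClosed_memb b

end Closed

section Metric

variable {X : Type u} [MetricSpace X] [CompactSpace X]

/-- A Whitney map for the hyperspace. -/
noncomputable def whitney (q : ℕ → X) (A : NonemptyCompacts X) : ℝ :=
  - ∑' n, (1 / 2 : ℝ) ^ n * Metric.infDist (q n) (A : Set X)

theorem infDist_le_diam (x : X) (A : NonemptyCompacts X) :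
    Metric.infDist x (A : Set X) ≤ Metric.diam (univ : Set X) := by
  obtain ⟨y, hy⟩ := A.nonempty
  exact (Metric.infDist_le_dist_of_mem hy).trans
    (Metric.dist_le_diam_of_mem isCompact_univ.isBounded (mem_univ _) (mem_univ _))

theorem summable_aux (q : ℕ → X) (A : NonemptyCompacts X) :
    Summable fun n => (1 / 2 : ℝ) ^ n * Metric.infDist (q n) (A : Set X) := by
  refine Summable.of_nonneg_of_le (fun n => by positivity [Metric.infDist_nonneg (s := (A : Set X)) (x := q n)]) (fun n => ?_)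
    (summable_geometric_two.mul_right (Metric.diam (univ : Set X)))
  exact mul_le_mul_of_nonneg_left (infDist_le_diam _ _) (by positivity)

theorem continuous_whitney (q : ℕ → X) : Continuous (whitney q) := by
  refine Continuous.neg ?_
  refine continuous_tsum (u := fun n => (1 / 2 : ℝ) ^ n * Metric.diam (univ : Set X)) ?_ ?_ ?_
  · intro n
    exact continuous_const.mul (Metric.lipschitz_infDist_set (q n)).continuous
  · exact summable_geometric_two.mul_right _
  · intro n A
    rw [Real.norm_of_nonneg (mul_nonneg (by positivity) Metric.infDist_nonneg)]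
    exact mul_le_mul_of_nonneg_left (infDist_le_diam _ _) (by positivity)

theorem whitney_strictMono (q : ℕ → X) (hq : DenseRange q) : StrictMono (whitney q) := by
  intro A B hAB
  have hle : (A : Set X) ⊆ B := hAB.le
  obtain ⟨x, hxB, hxA⟩ : ∃ x, x ∈ B ∧ x ∉ A := by
    by_contra h
    push Not at h
    exact hAB.not_ge h
  have hδ : 0 < Metric.infDist x (A : Set X) := by
    rw [← A.isCompact.isClosed.notMem_iff_infDist_pos A.nonempty]
    exact hxA
  obtain ⟨n, hn⟩ := Metric.denseRange_iff.1 hq x (Metric.infDist x (A : Set X) / 2) (by linarith)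
  unfold whitney
  rw [neg_lt_neg_iff]
  refine Summable.tsum_lt_tsum (i := n) (fun k => ?_) ?_ (summable_aux q B) (summable_aux q A)
  · exact mul_le_mul_of_nonneg_left (Metric.infDist_le_infDist_of_subset hle A.nonempty)
      (by positivity)
  · refine mul_lt_mul_of_pos_left ?_ (by positivity)
    have h1 : Metric.infDist (q n) (B : Set X) ≤ dist (q n) x :=
      Metric.infDist_le_dist_of_mem hxB
    have h2 : Metric.infDist x (A : Set X) ≤ Metric.infDist (q n) (A : Set X) + dist x (q n) :=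
      Metric.infDist_le_infDist_add_dist
    rw [dist_comm] at h1
    linarith

/-- Between two different comparable continua there is a third one. -/
theorem exists_between_continua {A B : NonemptyCompacts X} (hA : IsPreconnected (A : Set X))
    (hB : IsPreconnected (B : Set X)) (hAB : A < B) :
    ∃ C : NonemptyCompacts X, A < C ∧ C < B ∧ IsPreconnected (C : Set X) := by
  have hle : (A : Set X) ⊆ B := hAB.le
  obtain ⟨z, hzB, hzA⟩ : ∃ x, x ∈ B ∧ x ∉ A := by
    by_contra h
    push Not at h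
    exact hAB.not_ge h
  have hδ : 0 < Metric.infDist z (A : Set X) := by
    rw [← A.isCompact.isClosed.notMem_iff_infDist_pos A.nonempty]
    exact hzA
  set δ := Metric.infDist z (A : Set X) with hδdef
  set V : Set X := {x | x ∈ (B : Set X) ∧ Metric.infDist x (A : Set X) ≤ δ / 2} with hV
  have hVclosed : IsClosed V :=
    B.isCompact.isClosed.inter (isClosed_le (Metric.continuous_infDist_pt _) continuous_const)
  have hVc : IsCompact V := hVclosed.isCompact
  have hAV : (A : Set X) ⊆ V := fun x hx =>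
    ⟨hle hx, by rw [Metric.infDist_zero_of_mem hx]; linarith⟩
  obtain ⟨a, ha⟩ := A.nonempty
  have haV : a ∈ V := hAV ha
  have hzV : z ∉ V := fun h => by
    have := h.2
    rw [← hδdef] at this
    linarith
  have : CompactSpace V := isCompact_iff_compactSpace.1 hVc
  have hCc : IsCompact (connectedComponentIn V a) := by
    rw [connectedComponentIn_eq_image haV]
    exact (isClosed_connectedComponent.isCompact).image continuous_subtype_val
  let C : NonemptyCompacts X := ⟨⟨connectedComponentIn V a, hCc⟩, ⟨a, mem_connectedComponentIn haV⟩⟩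
  have hCcoe : (C : Set X) = connectedComponentIn V a := rfl
  have hAC : A ≤ C := hA.subset_connectedComponentIn ha hAV
  have hCV : (C : Set X) ⊆ V := connectedComponentIn_subset V a
  have hCB : C ≤ B := fun x hx => (hCV hx).1
  refine ⟨C, lt_of_le_not_ge hAC ?_, lt_of_le_not_ge hCB fun h => hzV (hCV (h hzB)),
    isPreconnected_connectedComponentIn⟩
  intro hCA
  -- a clopen subset of `V` around `A`
  set a' : V := ⟨a, haV⟩ with ha'
  set U' : Set V := {x | Metric.infDist (x : X) (A : Set X) < δ / 2} with hU'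
  have hU'o : IsOpen U' :=
    isOpen_lt ((Metric.continuous_infDist_pt _).comp continuous_subtype_val) continuous_const
  have hsub : (⋂ s : { s : Set V // IsClopen s ∧ a' ∈ s }, (s : Set V)) ⊆ U' := by
    rw [← connectedComponent_eq_iInter_isClopen]
    intro x hx
    have hx' : (x : X) ∈ (C : Set X) := by
      rw [hCcoe, connectedComponentIn_eq_image haV]
      exact ⟨x, hx, rfl⟩
    have : (x : X) ∈ (A : Set X) := hCA hx'
    change Metric.infDist (x : X) (A : Set X) < δ / 2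
    rw [Metric.infDist_zero_of_mem this]
    linarith
  have : Nonempty { s : Set V // IsClopen s ∧ a' ∈ s } := ⟨⟨univ, isClopen_univ, mem_univ _⟩⟩
  obtain ⟨⟨s, hs, has⟩, hsU⟩ := exists_subset_nhds_of_isCompact'
    (V := fun s : { s : Set V // IsClopen s ∧ a' ∈ s } => (s : Set V))
    (by
      intro s t
      exact ⟨⟨s.1 ∩ t.1, s.2.1.inter t.2.1, s.2.2, t.2.2⟩, inter_subset_left, inter_subset_right⟩)
    (fun s => s.2.1.1.isCompact) (fun s => s.2.1.1) (U := U')
    (fun x hx => hU'o.mem_nhds (hsub hx))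
  simp only at hsU
  obtain ⟨O, hO, hOs⟩ := isOpen_induced_iff.1 hs.2
  set W : Set X := (fun x : V => (x : X)) '' s with hW
  have hWc : IsClosed W := (hs.1.isCompact.image continuous_subtype_val).isClosed
  set O' : Set X := O ∩ {x | Metric.infDist x (A : Set X) < δ / 2} with hO'
  have hO'o : IsOpen O' :=
    hO.inter (isOpen_lt (Metric.continuous_infDist_pt _) continuous_const)
  have hBO : ∀ x, x ∈ (B : Set X) → x ∈ O' → x ∈ W := by
    intro x hxB hxO
    have hxV : x ∈ V := ⟨hxB, le_of_lt hxO.2⟩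
    refine ⟨⟨x, hxV⟩, ?_, rfl⟩
    rw [← hOs]
    exact hxO.1
  have hWO : ∀ x, x ∈ W → x ∈ O' := by
    rintro _ ⟨x, hx, rfl⟩
    refine ⟨?_, hsU hx⟩
    have : x ∈ Subtype.val ⁻¹' O := by rw [hOs]; exact hx
    exact this
  have haW : a ∈ W := ⟨a', has, rfl⟩
  have hzW : z ∉ W := by
    rintro ⟨x, hx, hxz⟩
    exact hzV (hxz ▸ x.2)
  obtain ⟨y, hyB, hyO, hyW⟩ := hB O' Wᶜ hO'o hWc.isOpen_compl
    (fun x _ => by
      by_cases h : x ∈ W
      · exact Or.inl (hWO x h)
      · exact Or.inr h)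
    ⟨a, hle ha, hWO a haW⟩ ⟨z, hzB, hzW⟩
  exact hyW (hBO y hyB hyO)

/-- **Order arcs**: if `b` is a point of the continuum `K`, then there is a path in the hyperspace
from `{b}` to `K`, all of whose values are subsets of `K`. -/
theorem exists_orderArc (b : X) (K : NonemptyCompacts X) (hb : b ∈ K)
    (hK : IsPreconnected (K : Set X)) :
    ∃ G : C(unitInterval, NonemptyCompacts X), G 0 = {b} ∧ G 1 = K ∧ ∀ t, G t ≤ K := by
  classical
  have : Nonempty X := ⟨b⟩
  obtain ⟨μ, hμc, hμm⟩ : ∃ μ : NonemptyCompacts X → ℝ, Continuous μ ∧ StrictMono μ :=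
    ⟨whitney (denseSeq X), continuous_whitney _, whitney_strictMono _ (denseRange_denseSeq X)⟩
  let 𝒞 : Set (NonemptyCompacts X) :=
    {A | b ∈ A} ∩ {A | A ≤ K} ∩ {A | IsPreconnected (A : Set X)}
  have h𝒞 : IsClosed 𝒞 :=
    ((isClosed_memb b).inter (isClosed_subs K)).inter isClosed_isPreconnected
  obtain ⟨M⟩ : Nonempty (Flag 𝒞) := inferInstance
  have hbb : ({b} : NonemptyCompacts X) ∈ 𝒞 := by
    refine ⟨⟨?_, ?_⟩, ?_⟩
    · change b ∈ (({b} : NonemptyCompacts X) : Set X)
      simp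
    · change (({b} : NonemptyCompacts X) : Set X) ⊆ K
      simpa using hb
    · change IsPreconnected (({b} : NonemptyCompacts X) : Set X)
      simpa using isPreconnected_singleton
  have hKK : K ∈ 𝒞 := ⟨⟨hb, le_refl K⟩, hK⟩
  have hbot : ∀ C : NonemptyCompacts X, b ∈ C → ({b} : NonemptyCompacts X) ≤ C := by
    intro C hC
    change (({b} : NonemptyCompacts X) : Set X) ⊆ C
    simpa using hC
  have hbM : (⟨{b}, hbb⟩ : 𝒞) ∈ M :=
    Flag.mem_iff_forall_le_or_ge.2 fun C _ => Or.inl (hbot C.1 C.2.1.1)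
  have hKM : (⟨K, hKK⟩ : 𝒞) ∈ M :=
    Flag.mem_iff_forall_le_or_ge.2 fun C _ => Or.inr C.2.1.2
  have hchain : ∀ C D : 𝒞, C ∈ M → D ∈ M → μ C < μ D → C < D := by
    intro C D hC hD h
    rcases M.le_or_le hC hD with h1 | h1
    · exact lt_of_le_of_ne h1 (fun h2 => by rw [h2] at h; exact lt_irrefl _ h)
    · exact absurd (hμm.monotone h1) (not_le.2 h)
  have hchain' : ∀ C D : 𝒞, C ∈ M → D ∈ M → μ C ≤ μ D → C ≤ D := by
    intro C D hC hD h
    rcases M.le_or_le hC hD with h1 | h1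
    · exact h1
    · rcases h1.eq_or_lt with h2 | h2
      · exact h2.ge
      · exact absurd (hμm (show D.1 < C.1 from h2)) (not_lt.2 h)
  have hmax : ∀ r, μ {b} ≤ r → ∃ D : 𝒞, D ∈ M ∧ μ D ≤ r ∧ ∀ C ∈ M, μ C ≤ r → C ≤ D := by
    intro r hr
    let ι := {C : 𝒞 // C ∈ M ∧ μ C ≤ r}
    have : Nonempty ι := ⟨⟨⟨{b}, hbb⟩, hbM, hr⟩⟩
    let T : ι → Set (NonemptyCompacts X) := fun C =>
      ({D | (C.1 : NonemptyCompacts X) ≤ D} ∩ {D | μ D ≤ r}) ∩ 𝒞 ∩
        ⋂ C' ∈ {C' : 𝒞 | C' ∈ M ∧ r < μ C'}, {D | D ≤ (C' : NonemptyCompacts X)}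
    have hTcl : ∀ C, IsClosed (T C) := fun C =>
      (((isClosed_sups _).inter (isClosed_le hμc continuous_const)).inter h𝒞).inter
        (isClosed_biInter fun C' _ => isClosed_subs _)
    have hTne : ∀ C, (T C).Nonempty := by
      intro C
      refine ⟨C.1, ⟨⟨le_refl (C.1 : NonemptyCompacts X), C.2.2⟩, C.1.2⟩, ?_⟩
      simp only [Set.mem_iInter]
      intro C' hC'
      exact (hchain C.1 C' C.2.1 hC'.1 (C.2.2.trans_lt hC'.2)).le
    have hTd : Directed (· ⊇ ·) T := by
      intro C D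
      rcases M.le_or_le C.2.1 D.2.1 with h | h
      · exact ⟨D, fun E hE => ⟨⟨⟨le_trans (show C.1.1 ≤ D.1.1 from h) hE.1.1.1, hE.1.1.2⟩,
          hE.1.2⟩, hE.2⟩, fun E hE => hE⟩
      · exact ⟨C, fun E hE => hE, fun E hE => ⟨⟨⟨le_trans (show D.1.1 ≤ C.1.1 from h) hE.1.1.1,
          hE.1.1.2⟩, hE.1.2⟩, hE.2⟩⟩
    obtain ⟨D, hD⟩ := IsCompact.nonempty_iInter_of_directed_nonempty_isCompact_isClosed T hTd hTne
      (fun C => (hTcl C).isCompact) hTcl
    rw [Set.mem_iInter] at hD
    have hD0 := hD ⟨⟨{b}, hbb⟩, hbM, hr⟩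
    have hub : ∀ C ∈ M, μ C ≤ r → C.1 ≤ D := fun C hC hCr => (hD ⟨C, hC, hCr⟩).1.1.1
    refine ⟨⟨D, hD0.1.2⟩, ?_, hD0.1.1.2, fun C hC hCr => hub C hC hCr⟩
    refine Flag.mem_iff_forall_le_or_ge.2 fun C hC => ?_
    by_cases h : μ C ≤ r
    · exact Or.inr (hub C hC h)
    · left
      have h2 := hD0.2
      simp only [Set.mem_iInter] at h2
      exact h2 C ⟨hC, not_le.1 h⟩
  have hmin : ∀ r, r ≤ μ K → ∃ D : 𝒞, D ∈ M ∧ r ≤ μ D ∧ ∀ C ∈ M, r ≤ μ C → D ≤ C := by
    intro r hr
    let ι := {C : 𝒞 // C ∈ M ∧ r ≤ μ C}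
    have : Nonempty ι := ⟨⟨⟨K, hKK⟩, hKM, hr⟩⟩
    let T : ι → Set (NonemptyCompacts X) := fun C =>
      ({D | D ≤ (C.1 : NonemptyCompacts X)} ∩ {D | r ≤ μ D}) ∩ 𝒞 ∩
        ⋂ C' ∈ {C' : 𝒞 | C' ∈ M ∧ μ C' < r}, {D | (C' : NonemptyCompacts X) ≤ D}
    have hTcl : ∀ C, IsClosed (T C) := fun C =>
      (((isClosed_subs _).inter (isClosed_le continuous_const hμc)).inter h𝒞).inter
        (isClosed_biInter fun C' _ => isClosed_sups _)
    have hTne : ∀ C, (T C).Nonempty := by
      intro C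
      refine ⟨C.1, ⟨⟨le_refl (C.1 : NonemptyCompacts X), C.2.2⟩, C.1.2⟩, ?_⟩
      simp only [Set.mem_iInter]
      intro C' hC'
      exact (hchain C' C.1 hC'.1 C.2.1 (hC'.2.trans_le C.2.2)).le
    have hTd : Directed (· ⊇ ·) T := by
      intro C D
      rcases M.le_or_le C.2.1 D.2.1 with h | h
      · exact ⟨C, fun E hE => hE, fun E hE => ⟨⟨⟨le_trans hE.1.1.1 (show C.1.1 ≤ D.1.1 from h),
          hE.1.1.2⟩, hE.1.2⟩, hE.2⟩⟩
      · exact ⟨D, fun E hE => ⟨⟨⟨le_trans hE.1.1.1 (show D.1.1 ≤ C.1.1 from h), hE.1.1.2⟩,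
          hE.1.2⟩, hE.2⟩, fun E hE => hE⟩
    obtain ⟨D, hD⟩ := IsCompact.nonempty_iInter_of_directed_nonempty_isCompact_isClosed T hTd hTne
      (fun C => (hTcl C).isCompact) hTcl
    rw [Set.mem_iInter] at hD
    have hD0 := hD ⟨⟨K, hKK⟩, hKM, hr⟩
    have hub : ∀ C ∈ M, r ≤ μ C → D ≤ C.1 := fun C hC hCr => (hD ⟨C, hC, hCr⟩).1.1.1
    refine ⟨⟨D, hD0.1.2⟩, ?_, hD0.1.1.2, fun C hC hCr => hub C hC hCr⟩
    refine Flag.mem_iff_forall_le_or_ge.2 fun C hC => ?_
    by_cases h : r ≤ μ C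
    · exact Or.inl (hub C hC h)
    · right
      have h2 := hD0.2
      simp only [Set.mem_iInter] at h2
      exact h2 C ⟨hC, not_le.1 h⟩
  have hsurj : ∀ r, μ {b} ≤ r → r ≤ μ K → ∃ D : 𝒞, D ∈ M ∧ μ D = r := by
    intro r hr1 hr2
    obtain ⟨D, hDM, hDr, hD⟩ := hmax r hr1
    obtain ⟨E, hEM, hEr, hE⟩ := hmin r hr2
    by_cases hDE : D = E
    · subst hDE
      exact ⟨D, hDM, le_antisymm hDr hEr⟩
    · have hDE' : D ≤ E := hchain' D E hDM hEM (hDr.trans hEr)
      have hlt : D.1 < E.1 := lt_of_le_of_ne hDE' (fun h => hDE (Subtype.ext h))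
      obtain ⟨C, hDC, hCE, hCp⟩ := exists_between_continua D.2.2 E.2.2 hlt
      have hC𝒞 : C ∈ 𝒞 := ⟨⟨hDC.le D.2.1.1, hCE.le.trans E.2.1.2⟩, hCp⟩
      have hCM : (⟨C, hC𝒞⟩ : 𝒞) ∈ M := by
        refine Flag.mem_iff_forall_le_or_ge.2 fun C' hC' => ?_
        rcases le_total (μ C') r with h | h
        · exact Or.inr ((hD C' hC' h).trans hDC.le)
        · exact Or.inl (hCE.le.trans (hE C' hC' h))
      rcases le_total (μ C) r with h | h
      · exact absurd (hD ⟨C, hC𝒞⟩ hCM h) (not_le_of_gt hDC)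
      · exact absurd (hE ⟨C, hC𝒞⟩ hCM h) (not_le_of_gt hCE)
  have hbK : μ {b} ≤ μ K := hμm.monotone (hbot K hb)
  have hρ : ∀ t : unitInterval, ∃ D : 𝒞, D ∈ M ∧ μ D = μ {b} + t * (μ K - μ {b}) := by
    intro t
    refine hsurj _ ?_ ?_
    · have : 0 ≤ (t : ℝ) * (μ K - μ {b}) := mul_nonneg t.2.1 (by linarith)
      linarith
    · have : (t : ℝ) * (μ K - μ {b}) ≤ 1 * (μ K - μ {b}) :=
        mul_le_mul_of_nonneg_right t.2.2 (by linarith)
      linarith
  choose G hGM hG using hρ
  have hmono : Monotone G := by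
    intro s t hst
    refine hchain' _ _ (hGM s) (hGM t) ?_
    rw [hG, hG]
    have : (s : ℝ) * (μ K - μ {b}) ≤ t * (μ K - μ {b}) :=
      mul_le_mul_of_nonneg_right hst (by linarith)
    linarith
  have heq : ∀ A B : NonemptyCompacts X, A ≤ B → μ A = μ B → A = B := by
    intro A B h1 h2
    rcases h1.eq_or_lt with h | h
    · exact h
    · exact absurd (hμm h) (by rw [h2]; exact lt_irrefl _)
  have hcont : Continuous fun t => (G t : NonemptyCompacts X) := by
    rw [continuous_iff_ultrafilter]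
    intro t 𝒰 h𝒰
    have hρc : Continuous fun t : unitInterval => μ {b} + (t : ℝ) * (μ K - μ {b}) := by
      fun_prop
    -- the limit
    obtain ⟨D, -, hD⟩ := isCompact_univ.ultrafilter_le_nhds (𝒰.map fun t => (G t).1)
      (by simp)
    have hD' : Filter.Tendsto (fun t => (G t).1) 𝒰 (𝓝 D) := hD
    have h1 : Filter.Tendsto (fun s => μ (G s)) 𝒰 (𝓝 (μ D)) := (hμc.tendsto D).comp hD'
    have h2 : Filter.Tendsto (fun s => μ (G s)) 𝒰 (𝓝 (μ (G t))) := by
      have h3 : (fun s => μ (G s)) = fun t : unitInterval => μ {b} + (t : ℝ) * (μ K - μ {b}) := by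
        funext s; exact hG s
      rw [h3, hG t]
      exact (hρc.tendsto t).mono_left h𝒰
    have h3 : μ D = μ (G t) := tendsto_nhds_unique h1 h2
    have h4 : D = (G t).1 := by
      rcases 𝒰.mem_or_compl_mem {s : unitInterval | s ≤ t} with h | h
      · refine heq _ _ ?_ h3
        exact (isClosed_subs (G t).1).mem_of_tendsto hD' (Filter.mem_of_superset h fun s hs =>
          show (G s).1 ≤ (G t).1 from hmono hs)
      · refine (heq _ _ ?_ h3.symm).symm
        exact (isClosed_sups (G t).1).mem_of_tendsto hD' (Filter.mem_of_superset h fun s hs =>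
          show (G t).1 ≤ (G s).1 from hmono (le_of_not_ge hs))
    rw [← h4]
    exact hD'
  refine ⟨⟨fun t => (G t).1, hcont⟩, ?_, ?_, fun t => (G t).2.1.2⟩
  · refine (heq _ _ (hbot _ (G 0).2.1.1) ?_).symm
    rw [hG]; simp
  · refine heq _ _ (G 1).2.1.2 ?_
    change μ (G 1).1 = μ K
    rw [hG]; simp

end Metric

end Pool.Agent.Ward
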