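import Pool.Agent.Ward.Semilattice
import Pool.Agent.Ward.OrderArc

/-!
If a compact metric space contains a continuum `K` and an arc meeting `K` exactly in its two
endpoints, then it carries a continuous closed-set-valued self-map without fixed points.
-/

set_option autoImplicit false

open Topology TopologicalSpace Set unitInterval

namespace Pool.Agent.Ward

universe u

section Iic

variable {Z : Type u} [TopologicalSpace Z] [SemilatticeSup Z] [ContinuousSup Z]

instance continuousSupIic (y : Z) : ContinuousSup (Set.Iic y) where
  continuous_sup :=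
    ((continuous_subtype_val.comp continuous_fst).sup
      (continuous_subtype_val.comp continuous_snd)).subtype_mk _

end Iic

theorem exists_fixedPointFree {X : Type u} [MetricSpace X] [CompactSpace X] (K : Set X)
    (hKc : IsClosed K) (hKp : IsPreconnected K) {a b : X} (α : Path a b)
    (hα : Function.Injective α) (ha : a ∈ K) (hb : b ∈ K)
    (hK : ∀ t : I, α t ∈ K → t = 0 ∨ t = 1) :
    ∃ F : X → NonemptyCompacts X, Continuous F ∧ ∀ x, x ∉ F x := by
  classical
  let K' : NonemptyCompacts X := ⟨⟨K, hKc.isCompact⟩, ⟨a, ha⟩⟩
  let R' : NonemptyCompacts X := ⟨⟨range α, isCompact_range α.continuous⟩, ⟨a, 0, α.source⟩⟩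
  let Y : NonemptyCompacts X := K' ⊔ R'
  have hYcoe : ∀ x : X, x ∈ Y ↔ x ∈ K ∨ x ∈ range α := fun x => Iff.rfl
  have hK'Y : K' ≤ Y := le_sup_left
  have hsing : ∀ t : I, ({α t} : NonemptyCompacts X) ≤ Y := by
    intro t x hx
    have hx' : x ∈ (({α t} : NonemptyCompacts X) : Set X) := hx
    rw [NonemptyCompacts.coe_singleton, Set.mem_singleton_iff] at hx'
    subst hx'
    exact Or.inr ⟨t, rfl⟩
  let sg : I → Set.Iic Y := fun t => ⟨{α t}, hsing t⟩
  have hS : Continuous sg :=
    (NonemptyCompacts.continuous_singleton.comp α.continuous).subtype_mk _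
  have hmemS : ∀ (t : I) (x : X), x ∈ (sg t).1 → x = α t := by
    intro t x hx
    have hx' : x ∈ (({α t} : NonemptyCompacts X) : Set X) := hx
    rwa [NonemptyCompacts.coe_singleton, Set.mem_singleton_iff] at hx'
  let half : I := ⟨1 / 2, by norm_num, by norm_num⟩
  let KY : Set.Iic Y := ⟨K', hK'Y⟩
  -- the four paths
  let r1 : I → I := fun u => ⟨(1 + (u : ℝ)) / 2, by
    constructor
    · have := u.2.1; linarith
    · have := u.2.2; linarith⟩
  have hr1 : Continuous r1 := by
    refine Continuous.subtype_mk ?_ _
    fun_prop
  let r4 : I → I := fun u => ⟨(u : ℝ) / 2, by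
    constructor
    · have := u.2.1; linarith
    · have := u.2.2; linarith⟩
  have hr4 : Continuous r4 := by
    refine Continuous.subtype_mk ?_ _
    fun_prop
  let p1 : Path (sg half) (sg 1) :=
    { toFun := fun u => sg (r1 u)
      continuous_toFun := hS.comp hr1
      source' := by
        congr 1
        ext
        simp [r1, half]
      target' := by
        congr 1
        ext
        simp [r1] }
  let p4 : Path (sg 0) (sg half) :=
    { toFun := fun u => sg (r4 u)
      continuous_toFun := hS.comp hr4
      source' := by
        congr 1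
        ext
        simp [r4]
      target' := by
        congr 1 }
  obtain ⟨Gb, hGb0, hGb1, hGb⟩ := exists_orderArc b K' hb hKp
  obtain ⟨Ga, hGa0, hGa1, hGa⟩ := exists_orderArc a K' ha hKp
  let p2 : Path (sg 1) KY :=
    { toFun := fun u => ⟨Gb u, (hGb u).trans hK'Y⟩
      continuous_toFun := Gb.continuous.subtype_mk _
      source' := by
        apply Subtype.ext
        change Gb 0 = {α 1}
        rw [hGb0, α.target]
      target' := by
        apply Subtype.ext
        exact hGb1 }
  let p3' : Path (sg 0) KY :=
    { toFun := fun u => ⟨Ga u, (hGa u).trans hK'Y⟩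
      continuous_toFun := Ga.continuous.subtype_mk _
      source' := by
        apply Subtype.ext
        change Ga 0 = {α 0}
        rw [hGa0, α.source]
      target' := by
        apply Subtype.ext
        exact hGa1 }
  let loop : Path (sg half) (sg half) := (p1.trans p2).trans (p3'.symm.trans p4)
  have hp2 : ∀ u, ∀ x ∈ (p2 u).1, x ∈ K := fun u x hx => hGb u hx
  have hp3 : ∀ u, ∀ x ∈ (p3'.symm u).1, x ∈ K := fun u x hx => hGa (unitInterval.symm u) hx
  have hloop : ∀ t : I, α t ∉ (loop t).1 := by
    intro t ht
    simp only [loop, Path.trans_apply] at ht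
    split_ifs at ht with h1 h2 h3
    · -- first quarter
      have h4 := hα (hmemS _ _ ht)
      have h5 := congrArg Subtype.val h4
      simp only [r1] at h5
      have := t.2.1
      linarith
    · have h4 := hK t (hp2 _ _ ht)
      rcases h4 with h4 | h4
      · apply h2; rw [h4]; norm_num
      · rw [h4] at h1; norm_num at h1
    · have h4 := hK t (hp3 _ _ ht)
      rcases h4 with h4 | h4
      · apply h1; rw [h4]; norm_num
      · rw [h4] at h3; norm_num at h3
    · have h4 := hα (hmemS _ _ ht)
      have h5 := congrArg Subtype.val h4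
      simp only [r4] at h5
      have := t.2.2
      linarith
  obtain ⟨E⟩ := loop_nullhomotopic loop
  have hEc : Continuous E := E.continuous
  have hE0 : ∀ t : I, E (0, t) = loop t := fun t => E.apply_zero t
  have hE1 : ∀ t : I, E (1, t) = sg half := fun t => E.apply_one t
  have hEs : ∀ s : I, E (s, 0) = sg half := fun s => by simp
  have hEt : ∀ s : I, E (s, 1) = sg half := fun s => by simp
  have hmid : α half ∉ K := by
    intro h
    rcases hK half h with h | h
    · have := congrArg Subtype.val h
      simp only [half] at this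
      norm_num at this
    · have := congrArg Subtype.val h
      simp only [half] at this
      norm_num at this
  -- first coordinate
  obtain ⟨f, hf⟩ := ContinuousMap.exists_extension' (X := X) (e := α)
    (α.continuous.isClosedEmbedding hα) (ContinuousMap.id I)
  have hf' : ∀ t, f (α t) = t := fun t => congrFun hf t
  -- bad parameters
  let N : Set I := Prod.snd '' {p : I × I | (((E p).1 : Set X) ∩ K).Nonempty}
  have hNc : IsClosed N := by
    have h1 : IsClosed {p : I × I | (((E p).1 : Set X) ∩ K).Nonempty} :=
      (NonemptyCompacts.isClosed_inter_nonempty_of_isClosed hKc).preimage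
        (continuous_subtype_val.comp hEc)
    exact (h1.isCompact.image continuous_snd).isClosed
  have hdisj : Disjoint (range α) (K ∩ f ⁻¹' N) := by
    rw [Set.disjoint_left]
    rintro _ ⟨t, rfl⟩ ⟨h1, h2⟩
    have h3 : t ∈ N := by
      have : f (α t) ∈ N := h2
      rwa [hf'] at this
    obtain ⟨⟨s, t'⟩, ⟨x, hx, hxK⟩, h4⟩ := h3
    simp only at h4
    subst h4
    rcases hK _ h1 with h | h
    · subst h
      rw [hEs] at hx
      have := hmemS _ _ hx
      rw [this] at hxK
      exact hmid hxK
    · subst h
      rw [hEt] at hx
      have := hmemS _ _ hx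
      rw [this] at hxK
      exact hmid hxK
  obtain ⟨h, hh0, hh1, hhI⟩ := exists_continuous_zero_one_of_isClosed
    (isCompact_range α.continuous).isClosed (hKc.inter (hNc.preimage f.continuous)) hdisj
  let h' : X → I := fun x => ⟨h x, hhI x⟩
  have hh'c : Continuous h' := h.continuous.subtype_mk _
  refine ⟨fun x => (E (h' x, f x)).1, ?_, ?_⟩
  · exact continuous_subtype_val.comp (hEc.comp (hh'c.prodMk f.continuous))
  · intro x hx
    change x ∈ (E (h' x, f x)).1 at hx
    have hxY : x ∈ Y := (E (h' x, f x)).2 hx
    rcases (hYcoe x).1 hxY with hxK | ⟨t, rfl⟩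
    · by_cases hN : f x ∈ N
      · have h1 : h' x = 1 := Subtype.ext (hh1 ⟨hxK, hN⟩)
        rw [h1, hE1] at hx
        have := hmemS _ _ hx
        rw [this] at hxK
        exact hmid hxK
      · exact hN ⟨(h' x, f x), ⟨x, hx, hxK⟩, rfl⟩
    · have h1 : h' (α t) = 0 := Subtype.ext (hh0 ⟨t, rfl⟩)
      rw [h1, hf', hE0] at hx
      exact hloop t hx

end Pool.Agent.Ward
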