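import Mathlib

/-!
Cutting down an arc with endpoints in a closed set `K`, not contained in `K`, to a subarc that
meets `K` exactly in its two endpoints.
-/

set_option autoImplicit false

open Topology TopologicalSpace Set unitInterval

namespace Pool.Agent.Ward

universe u

theorem exists_subarc {X : Type u} [TopologicalSpace X] (K : Set X)
    (hKc : IsClosed K) {p q : X} (γ : Path p q) (hγ : Function.Injective γ) (hp : p ∈ K)
    (hq : q ∈ K) (u : I) (hu : γ u ∉ K) :
    ∃ (a b : X) (α : Path a b), Function.Injective α ∧ a ∈ K ∧ b ∈ K ∧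
      ∀ t : I, α t ∈ K → t = 0 ∨ t = 1 := by
  have hT : IsClosed {t : I | γ t ∈ K} := hKc.preimage γ.continuous
  obtain ⟨s, ⟨hsK, hsu⟩, hs⟩ := (hT.inter isClosed_Iic).isCompact.exists_isGreatest
    (s := {t : I | γ t ∈ K} ∩ Iic u)
    ⟨0, by change γ 0 ∈ K; rw [γ.source]; exact hp, u.2.1⟩
  obtain ⟨t, ⟨htK, htu⟩, ht⟩ := (hT.inter isClosed_Ici).isCompact.exists_isLeast
    (s := {t : I | γ t ∈ K} ∩ Ici u)
    ⟨1, by change γ 1 ∈ K; rw [γ.target]; exact hq, u.2.2⟩
  have hsu' : s < u := lt_of_le_of_ne hsu (fun h => hu (h ▸ hsK))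
  have htu' : u < t := lt_of_le_of_ne htu (fun h => hu (h.symm ▸ htK))
  have hst : (s : ℝ) < t := hsu'.trans htu'
  have hcI : ∀ r : I, (s : ℝ) + r * (t - s) ∈ I := by
    intro r
    have h0 := r.2.1
    have h1 := r.2.2
    have h2 : (0 : ℝ) ≤ r * (t - s) := mul_nonneg h0 (by linarith)
    have h3 : (r : ℝ) * (t - s) ≤ 1 * (t - s) := mul_le_mul_of_nonneg_right h1 (by linarith)
    constructor
    · have := s.2.1; linarith
    · have := t.2.2; linarith
  let c : I → I := fun r => ⟨(s : ℝ) + r * (t - s), hcI r⟩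
  have hc : Continuous c := by
    refine Continuous.subtype_mk ?_ _
    fun_prop
  have hcval : ∀ r : I, ((c r : I) : ℝ) = (s : ℝ) + r * (t - s) := fun r => rfl
  have hc0 : c 0 = s := by ext; simp [hcval]
  have hc1 : c 1 = t := by ext; simp [hcval]
  refine ⟨γ s, γ t, ⟨⟨fun r => γ (c r), γ.continuous.comp hc⟩, ?_, ?_⟩, ?_, hsK, htK, ?_⟩
  · change γ (c 0) = γ s
    rw [hc0]
  · change γ (c 1) = γ t
    rw [hc1]
  · intro r r' h
    have h1 : γ (c r) = γ (c r') := h
    have h2 := congrArg Subtype.val (hγ h1)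
    rw [hcval, hcval] at h2
    ext
    have h3 : ((r : ℝ) - r') * (t - s) = 0 := by linarith
    rcases mul_eq_zero.1 h3 with h4 | h4
    · linarith
    · linarith
  · intro r hr
    have hr' : γ (c r) ∈ K := hr
    rcases le_total (c r) u with h | h
    · left
      have h1 : c r ≤ s := hs ⟨hr', h⟩
      have h2 : (s : ℝ) + r * (t - s) ≤ s := h1
      have h3 : (r : ℝ) * (t - s) ≤ 0 := by linarith
      ext
      have h4 : (r : ℝ) ≤ 0 := by
        by_contra h5
        push Not at h5
        have := mul_pos h5 (show (0 : ℝ) < t - s by linarith)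
        linarith
      have := r.2.1
      change (r : ℝ) = 0
      linarith
    · right
      have h1 : t ≤ c r := ht ⟨hr', h⟩
      have h2 : (t : ℝ) ≤ (s : ℝ) + r * (t - s) := h1
      ext
      have h4 : (1 : ℝ) ≤ r := by
        by_contra h5
        push Not at h5
        have := mul_pos (show (0 : ℝ) < 1 - r by linarith) (show (0 : ℝ) < t - s by linarith)
        nlinarith
      have := r.2.2
      change (r : ℝ) = 1
      linarith

end Pool.Agent.Ward
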