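import Mathlib

/-!
Every loop in a topological join-semilattice is null-homotopic.
-/

set_option autoImplicit false

open Topology unitInterval

namespace Pool.Agent.Ward

universe u

variable {Z : Type u} [TopologicalSpace Z] [SemilatticeSup Z] [ContinuousSup Z]

/-- The pointwise join of two loops at `z`. -/
def supLoop {z : Z} (p q : Path z z) : Path z z where
  toFun t := p t ⊔ q t
  continuous_toFun := p.continuous.sup q.continuous
  source' := by simp
  target' := by simp

@[simp] theorem supLoop_apply {z : Z} (p q : Path z z) (t : I) :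
    supLoop p q t = p t ⊔ q t := rfl

theorem supLoop_self {z : Z} (p : Path z z) : supLoop p p = p := by
  ext t; simp

theorem supLoop_comm {z : Z} (p q : Path z z) : supLoop p q = supLoop q p := by
  ext t; simp [sup_comm]

theorem supLoop_refl_refl {z : Z} (p : Path z z) :
    supLoop (supLoop p (Path.refl z)) (Path.refl z) = supLoop p (Path.refl z) := by
  ext t; simp

theorem supLoop_trans {z : Z} (p q p' q' : Path z z) :
    supLoop (p.trans q) (p'.trans q') = (supLoop p p').trans (supLoop q q') := by
  ext t
  simp only [supLoop_apply, Path.trans_apply]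
  split_ifs <;> rfl

theorem supLoop_homotopic {z : Z} {p p' q q' : Path z z} (hp : p.Homotopic p')
    (hq : q.Homotopic q') : (supLoop p q).Homotopic (supLoop p' q') := by
  obtain ⟨F⟩ := hp
  obtain ⟨G⟩ := hq
  refine ⟨⟨⟨⟨fun x => F x ⊔ G x, ?_⟩, ?_, ?_⟩, ?_⟩⟩
  · exact F.continuous.sup G.continuous
  · intro t; simp
  · intro t; simp
  · intro t x hx
    rcases hx with hx | hx
    · subst hx; simp
    · rw [Set.mem_singleton_iff] at hx
      subst hx; simp

/-- Every loop in a topological join-semilattice is null-homotopic. -/
theorem loop_nullhomotopic {z : Z} (p : Path z z) : p.Homotopic (Path.refl z) := by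
  -- p ~ (p ∨ e) * (e ∨ p)
  have key : ∀ q : Path z z, (Path.Homotopic.Quotient.mk q) =
      (Path.Homotopic.Quotient.mk (supLoop q (Path.refl z))).trans
        (Path.Homotopic.Quotient.mk (supLoop q (Path.refl z))) := by
    intro q
    have h1 : q.Homotopic (q.trans (Path.refl z)) := ⟨(Path.Homotopy.transRefl q).symm⟩
    have h2 : q.Homotopic ((Path.refl z).trans q) := ⟨(Path.Homotopy.reflTrans q).symm⟩
    have h3 := supLoop_homotopic h1 h2
    rw [supLoop_self, supLoop_trans, supLoop_comm (Path.refl z) q] at h3
    rw [← Path.Homotopic.Quotient.mk_trans]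
    exact Path.Homotopic.Quotient.eq.2 h3
  set p' := supLoop p (Path.refl z) with hp'
  have h1 := key p
  have h2 := key p'
  rw [hp', supLoop_refl_refl, ← hp'] at h2
  -- p' = p' * p' hence p' = 1
  have h3 : Path.Homotopic.Quotient.mk p' = Path.Homotopic.Quotient.refl z := by
    have h4 : ((Path.Homotopic.Quotient.mk p').trans (Path.Homotopic.Quotient.mk p')).trans
          (Path.Homotopic.Quotient.mk p').symm = Path.Homotopic.Quotient.refl z := by
      rw [← h2, Path.Homotopic.Quotient.trans_symm]
    rw [Path.Homotopic.Quotient.trans_assoc, Path.Homotopic.Quotient.trans_symm,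
      Path.Homotopic.Quotient.trans_refl] at h4
    exact h4
  rw [h3, Path.Homotopic.Quotient.trans_refl, ← Path.Homotopic.Quotient.mk_refl] at h1
  exact Path.Homotopic.Quotient.eq.1 h1

end Pool.Agent.Ward
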